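import Pool.Agent.H.MP_95c4c5_lc.D

set_option autoImplicit false

namespace Pool.Agent.Results.MP_95c4c5_lc.Fpt
open Pool.Agent.Lib.CX Pool.Agent.H.MP_95c4c5_lc

theorem result : ∃ (p : Prog) (g : ℕ → ℕ) (q : Polynomial ℕ), Computable g ∧
    ∀ (s f n : ℕ) (a P : ℕ → Fin s → ℝ), 0 < f → ∃ (t : ℕ) (out : Tri), t ≤ g f * q.eval n ∧
      Run p (ans a P) (Enc.tr (List.replicate f (), List.replicate n (), ())) [] t out ∧
      IsPart n out ∧ ∀ T, IsPart n T → per f a P T ≤ per f a P out := by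
  obtain ⟨p, r, hr⟩ := prog
  obtain ⟨q0, h0⟩ : PB fun z : LU × LU => size z.1 + size z.2 + 3 * size (keys z.1 z.2) +
      3 * z.2.length * (size (ros z.1) + 1) := by fun_prop
  obtain ⟨d, hd⟩ := eval_mul_le q0
  obtain ⟨e, he⟩ := eval_mul_le r
  let G : ℕ → ℕ := fun f => (3 * f + 5) ^ d + 3 * ((2 ^ 4 ^ KK f + 1) * (2 ^ 4 ^ KK f + 1)) +
    9 * 2 ^ 4 ^ KK f + 60
  have pw : Primrec₂ fun a b : ℕ => a ^ b := Primrec₂.unpaired'.1 Nat.Primrec.pow
  have ad := Primrec.nat_add
  have mu := Primrec.nat_mul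
  have c : ∀ k : ℕ, Primrec fun _ : ℕ => k := Primrec.const
  have f3 : Primrec fun f : ℕ => f ^ 3 := pw.comp Primrec.id (c 3)
  have hK : Primrec KK := ad.comp (ad.comp (mu.comp (c 2) (pw.comp (c 7) (ad.comp (mu.comp (c 16) f3) (c 1))))
    (mu.comp (c 72) f3)) (c 2)
  have hC : Primrec fun f => 2 ^ 4 ^ KK f := pw.comp (c 2) (pw.comp (c 4) hK)
  have hG : Primrec G := ad.comp (ad.comp (ad.comp
    (pw.comp (ad.comp (mu.comp (c 3) Primrec.id) (c 5)) (c d))
    (mu.comp (c 3) (mu.comp (ad.comp hC (c 1)) (ad.comp hC (c 1))))) (mu.comp (c 9) hC)) (c 60)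
  refine ⟨p, fun f => G f ^ e, (Polynomial.X + 2) * r.comp (q0.comp (3 * Polynomial.X + 1) + 1),
    (pw.comp hG (c e)).to_comp, fun s f n a P hf => ?_⟩
  have b : B0 (List.replicate f ()) (List.replicate n ()) + 9 * 2 ^ 4 ^ KK f + 20 ≤
      G f * (q0.eval (3 * n + 1) + 1) := by
    have h1 := h0 (List.replicate f (), List.replicate n ())
    rw [size_pair, size_rep, size_rep] at h1
    have h2 := h1.trans (eval_mono q0 (show _ ≤ (3 * f + 5) * (3 * n + 1) by nlinarith))
    have h3 := h2.trans (hd _ _ (by omega))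
    simp only [B0, G, List.length_replicate, size_rep] at h3 ⊢
    simp only [add_mul _ _ (q0.eval (3 * n + 1) + 1), mul_add _ (q0.eval (3 * n + 1)) 1]
    omega
  obtain ⟨t, out, h1, h2⟩ := run0 a P (p := p) (F := List.replicate f ()) (N := List.replicate n ())
    (Tm := r.eval (G f * (q0.eval (3 * n + 1) + 1))) (by simpa using hf) (fun l h hs =>
      hr (_, _, l) h _ (by simp only [List.length_replicate]; omega))
  simp only [List.length_replicate] at h1 h2
  refine ⟨t, out, h1.trans ?_, h2⟩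
  have := he (G f) (q0.eval (3 * n + 1) + 1) (by simp only [G]; omega)
  simp only [Polynomial.eval_mul, Polynomial.eval_add, Polynomial.eval_comp, Polynomial.eval_X,
    Polynomial.eval_ofNat, Polynomial.eval_one]
  calc _ ≤ (n + 2) * (G f ^ e * r.eval (q0.eval (3 * n + 1) + 1)) := Nat.mul_le_mul_left _ this
    _ = _ := by ring

end Pool.Agent.Results.MP_95c4c5_lc.Fpt
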